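import Pool.Agent.MP_b29958_an.Proof

namespace Pool.Agent.Results.MP_b29958_an.ComplementedIdeal

open Pool.Agent.MP_b29958_an

universe u

/-- A complemented closed two-sided ideal `J` of an approximately semi-amenable complex Banach
algebra `A` is approximately semi-amenable. -/
theorem result (A : Type u) [NonUnitalNormedRing A] [NormedSpace ℂ A] [IsScalarTower ℂ A A]
    [SMulCommClass ℂ A A] [CompleteSpace A] (hA : ApproxSemiAmenable A)
    (J : NonUnitalSubalgebra ℂ A) (hclosed : IsClosed (J : Set A))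
    (hleft : ∀ a : A, ∀ x ∈ J, a * x ∈ J) (hright : ∀ a : A, ∀ x ∈ J, x * a ∈ J)
    (P : A →L[ℂ] J) (hP : ∀ x : J, P x = x) :
    @ApproxSemiAmenable J J.nonUnitalNormedRing (SubmoduleClass.toNormedSpace (R := ℂ) J) := by
  letI : NormedSpace ℂ J := SubmoduleClass.toNormedSpace (R := ℂ) J
  rw [← bamen_iff] at hA ⊢
  intro X _ _ _ M D hD
  let ι : J →L[ℂ] A := ⟨(J.toSubmodule.subtype : J →ₗ[ℂ] A), continuous_subtype_val⟩
  have h : CI ι P :=
    { mul := fun _ _ => rfl
      proj := hP
      left := fun a x => congrArg Subtype.val (hP ⟨a * x, hleft a x x.2⟩)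
      right := fun a x => congrArg Subtype.val (hP ⟨x * a, hright a x x.2⟩) }
  exact approxSemiAmenable_of_CI hA h M.dual D hD

end Pool.Agent.Results.MP_b29958_an.ComplementedIdeal
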